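import Pool.Agent.Helper66.HK.StOut

/-! Sticky Kakeya sets, core of the Hausdorff form: the passage to the form of helper70. -/

namespace Pool.Agent.Helper66.HK

open Finset Pool.Agent.Helper69.RK

noncomputable section

/-- symmetry of the conditional mutual information -/
theorem out_sym (e1 : ST_E1) (e2 : ST_E2) {Ω α β γ : Type} [Fintype Ω] (μ : Ω → ℝ) (f : Ω → α)
    (h : Ω → β) (g : Ω → γ) (hμ : ∀ ω, 0 ≤ μ ω) :
    MI μ f h g = CH μ h g - CH μ h (fun ω => (f ω, g ω)) := by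
  obtain ⟨-, c1, -⟩ := e1 Ω α β γ μ f h g hμ
  obtain ⟨-, c2, -⟩ := e1 Ω β α γ μ h f g hμ
  have c3 : CH μ (fun ω => (f ω, h ω)) g ≤ CH μ (fun ω => (h ω, f ω)) g :=
    e2.1 Ω _ _ γ μ _ _ g hμ (fun ω ω' _ _ hh => by
      simp only [Prod.mk.injEq] at hh ⊢
      exact ⟨hh.1.2, hh.1.1⟩)
  have c4 : CH μ (fun ω => (h ω, f ω)) g ≤ CH μ (fun ω => (f ω, h ω)) g :=
    e2.1 Ω _ _ γ μ _ _ g hμ (fun ω ω' _ _ hh => by
      simp only [Prod.mk.injEq] at hh ⊢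
      exact ⟨hh.1.2, hh.1.1⟩)
  unfold MI
  linarith

/-- cells of the rounded point -/
theorem out_cel {m : ℕ} (n k : ℕ) (hk : k ≤ n) (y : Fin m → ℝ) :
    cel k (fun i => ((cel n y i : ℤ) : ℝ) / (2 : ℝ) ^ n) = cel k y := by
  funext i
  unfold cel
  obtain ⟨j, rfl⟩ := Nat.exists_eq_add_of_le hk
  have h2 : (2 : ℝ) ^ k ≠ 0 := by positivity
  have h3 : (2 : ℝ) ^ j ≠ 0 := by positivity
  have e1 : (2 : ℝ) ^ k * (((⌊(2 : ℝ) ^ (k + j) * y i⌋ : ℤ) : ℝ) / (2 : ℝ) ^ (k + j)) =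
      ((⌊(2 : ℝ) ^ (k + j) * y i⌋ : ℤ) : ℝ) / ((2 ^ j : ℕ) : ℝ) := by
    push_cast
    rw [pow_add]
    field_simp
  have e2 : (2 : ℝ) ^ k * y i = ((2 : ℝ) ^ (k + j) * y i) / ((2 ^ j : ℕ) : ℝ) := by
    push_cast
    rw [pow_add]
    field_simp
  show ⌊_⌋ = ⌊_⌋
  rw [e1, e2, Int.floor_div_natCast, Int.floor_div_natCast, Int.floor_intCast]

theorem out_unit {m : ℕ} (n : ℕ) (y : Fin m → ℝ) (i : Fin m) (h : 0 ≤ y i ∧ y i < 1) :
    0 ≤ ((cel n y i : ℤ) : ℝ) / (2 : ℝ) ^ n ∧ ((cel n y i : ℤ) : ℝ) / (2 : ℝ) ^ n < 1 := by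
  have hp : (0 : ℝ) < (2 : ℝ) ^ n := by positivity
  unfold cel
  constructor
  · apply div_nonneg _ hp.le
    have : (0 : ℤ) ≤ ⌊(2 : ℝ) ^ n * y i⌋ := Int.floor_nonneg.2 (mul_nonneg hp.le h.1)
    exact_mod_cast this
  · rw [div_lt_one hp]
    calc ((⌊(2 : ℝ) ^ n * y i⌋ : ℤ) : ℝ) ≤ (2 : ℝ) ^ n * y i := Int.floor_le _
      _ < (2 : ℝ) ^ n * 1 := by
          exact mul_lt_mul_of_pos_left h.2 hp
      _ = _ := mul_one _

/-- rounding the line moves the cell by at most two -/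
theorem out_diff {m : ℕ} (n : ℕ) (t : ℝ) (a x : Fin m → ℝ) (ht0 : 0 ≤ t) (ht1 : t < 1) (i : Fin m) :
    0 ≤ cel n (Yt t a x) i - cel n (Yt t (fun i => ((cel n a i : ℤ) : ℝ) / (2 : ℝ) ^ n)
      (fun i => ((cel n x i : ℤ) : ℝ) / (2 : ℝ) ^ n)) i ∧
    cel n (Yt t a x) i - cel n (Yt t (fun i => ((cel n a i : ℤ) : ℝ) / (2 : ℝ) ^ n)
      (fun i => ((cel n x i : ℤ) : ℝ) / (2 : ℝ) ^ n)) i ≤ 2 := by
  have hp : (0 : ℝ) < (2 : ℝ) ^ n := by positivity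
  have e1 : (2 : ℝ) ^ n * (((⌊(2 : ℝ) ^ n * a i⌋ : ℤ) : ℝ) / (2 : ℝ) ^ n +
      t * (((⌊(2 : ℝ) ^ n * x i⌋ : ℤ) : ℝ) / (2 : ℝ) ^ n)) =
      ((⌊(2 : ℝ) ^ n * a i⌋ : ℤ) : ℝ) + t * ((⌊(2 : ℝ) ^ n * x i⌋ : ℤ) : ℝ) := by
    field_simp
  have e2 : (2 : ℝ) ^ n * (a i + t * x i) = (2 : ℝ) ^ n * a i + t * ((2 : ℝ) ^ n * x i) := by ring
  unfold cel Yt
  show 0 ≤ ⌊(2 : ℝ) ^ n * (a i + t * x i)⌋ - ⌊(2 : ℝ) ^ n * (((⌊(2 : ℝ) ^ n * a i⌋ : ℤ) : ℝ) /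
      (2 : ℝ) ^ n + t * (((⌊(2 : ℝ) ^ n * x i⌋ : ℤ) : ℝ) / (2 : ℝ) ^ n))⌋ ∧
    ⌊(2 : ℝ) ^ n * (a i + t * x i)⌋ - ⌊(2 : ℝ) ^ n * (((⌊(2 : ℝ) ^ n * a i⌋ : ℤ) : ℝ) /
      (2 : ℝ) ^ n + t * (((⌊(2 : ℝ) ^ n * x i⌋ : ℤ) : ℝ) / (2 : ℝ) ^ n))⌋ ≤ 2
  rw [e1, e2]
  have f1 := Int.floor_le ((2 : ℝ) ^ n * a i)
  have f2 := Int.lt_floor_add_one ((2 : ℝ) ^ n * a i)
  have f3 := Int.floor_le ((2 : ℝ) ^ n * x i)
  have f4 := Int.lt_floor_add_one ((2 : ℝ) ^ n * x i)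
  have g1 : t * ((⌊(2 : ℝ) ^ n * x i⌋ : ℤ) : ℝ) ≤ t * ((2 : ℝ) ^ n * x i) :=
    mul_le_mul_of_nonneg_left f3 ht0
  have g2 : t * ((2 : ℝ) ^ n * x i) ≤ t * (((⌊(2 : ℝ) ^ n * x i⌋ : ℤ) : ℝ) + 1) :=
    mul_le_mul_of_nonneg_left f4.le ht0
  set u := ((⌊(2 : ℝ) ^ n * a i⌋ : ℤ) : ℝ) + t * ((⌊(2 : ℝ) ^ n * x i⌋ : ℤ) : ℝ) with hu
  set v := (2 : ℝ) ^ n * a i + t * ((2 : ℝ) ^ n * x i) with hv
  have huv : u ≤ v := by rw [hu, hv]; linarith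
  have hvu : v < u + 2 := by rw [hu, hv]; nlinarith
  constructor
  · have := Int.floor_le_floor huv
    linarith
  · have h1 : v < ((⌊u⌋ : ℤ) : ℝ) + 1 + 2 := by
      have := Int.lt_floor_add_one u
      linarith
    have h2 : ⌊v⌋ < ⌊u⌋ + 1 + 2 := by
      rw [Int.floor_lt]
      push_cast
      exact h1
    omega

theorem st_OUT (e1 : ST_E1) (e2 : ST_E2) (e3 : ST_E3) : ST_OUT := by
  intro m hgap ε hε
  obtain ⟨η, hη, n0, hn0⟩ := hgap (ε / 2) (by positivity)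
  set L := (m : ℝ) * Real.logb 2 (2 + 1) with hL
  refine ⟨η, hη, max n0 ⌈2 * L / ε⌉₊, ?_⟩
  intro n hnge Ω ζ _ μ Z a x t hsys htlt hent
  have hnn : n0 ≤ n := le_trans (le_max_left _ _) hnge
  have hnL : L ≤ ε / 2 * n := by
    have h1 : (⌈2 * L / ε⌉₊ : ℝ) ≤ n := by exact_mod_cast le_trans (le_max_right _ _) hnge
    have h2 := (Nat.le_ceil (2 * L / ε)).trans h1
    rw [div_le_iff₀ hε] at h2
    linarith
  have hμ := hsys.nn
  have hp : (0 : ℝ) < (2 : ℝ) ^ n := by positivity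
  -- the rounded line
  set a' : Ω → Fin m → ℝ := fun ω i => ((cel n (a ω) i : ℤ) : ℝ) / (2 : ℝ) ^ n with ha'
  set x' : Ω → Fin m → ℝ := fun ω i => ((cel n (x ω) i : ℤ) : ℝ) / (2 : ℝ) ^ n with hx'
  set t' : Ω → ℝ := fun ω => ht n (t ω) with ht'
  have hca : ∀ k ≤ n, ∀ ω, cel k (a' ω) = cel k (a ω) := fun k hk ω => out_cel n k hk (a ω)
  have hcx : ∀ k ≤ n, ∀ ω, cel k (x' ω) = cel k (x ω) := fun k hk ω => out_cel n k hk (x ω)
  have htb : ∀ ω, 0 ≤ t' ω ∧ t' ω < 1 := by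
    intro ω
    have h1 : (t ω : ℝ) < (2 : ℝ) ^ n := by exact_mod_cast htlt ω
    constructor
    · show 0 ≤ (t ω : ℝ) / (2 : ℝ) ^ n
      positivity
    · show (t ω : ℝ) / (2 : ℝ) ^ n < 1
      rw [div_lt_one hp]
      exact h1
  have hhn : ∀ ω, hn n (t' ω) = (t ω : ℤ) := by
    intro ω
    show ⌊(2 : ℝ) ^ n * ((t ω : ℝ) / (2 : ℝ) ^ n)⌋ = _
    rw [mul_div_cancel₀ _ hp.ne']
    exact Int.floor_natCast _
  have htt : ∀ ω ω', t' ω = t' ω' → t ω = t ω' := by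
    intro ω ω' h
    have h1 := hhn ω
    have h2 := hhn ω'
    rw [h] at h1
    have : (t ω : ℤ) = (t ω' : ℤ) := h1.symm.trans h2
    exact_mod_cast this
  -- the height given the line
  have hH1 : (1 - η) * n ≤ CH μ t (fun ω => ((a' ω, x' ω), Z ω)) := by
    refine hent.trans (e2.2.1 Ω _ _ _ μ _ _ _ hμ ?_)
    intro ω ω' _ _ h
    simp only [Prod.mk.injEq] at h ⊢
    obtain ⟨h1, h2, h3⟩ := h
    refine ⟨⟨?_, ?_⟩, h3⟩
    · simp only [ha', h1]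
    · simp only [hx', h2]
  have hHS : HS m n η μ Z a' x' t' := by
    refine ⟨hμ, hsys.ms, fun ω i => out_unit n (a ω) i (hsys.ab ω i),
      fun ω i => out_unit n (x ω) i (hsys.xb ω i), htb, ?_, ?_, ?_⟩
    · intro k hk
      rw [out_sym e1 e2 μ _ _ _ hμ]
      have h1 := hsys.st k hk
      have h2 : CH μ (fun ω => cel k (a' ω)) (fun ω => (cel k (x' ω), Z ω)) ≤ η * n := by
        simp only [hca k hk, hcx k hk]
        exact h1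
      have h3 := (e1 Ω _ Unit _ μ (fun ω => cel k (a' ω)) (fun _ => ())
        (fun ω => (cel n (x' ω), (cel k (x' ω), Z ω))) hμ).1
      linarith
    · refine hH1.trans (e2.1 Ω _ _ _ μ _ _ _ hμ ?_)
      intro ω ω' _ _ h
      simp only [Prod.mk.injEq] at h
      have h1 := h.1
      rw [hhn, hhn] at h1
      exact_mod_cast h1
    · rw [out_sym e1 e2 μ _ _ _ hμ]
      have h1 : CH μ t (fun ω => ((a' ω, x' ω), Z ω)) ≤ CH μ t' (fun ω => ((a' ω, x' ω), Z ω)) := by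
        refine e2.1 Ω _ _ _ μ _ _ _ hμ ?_
        intro ω ω' _ _ h
        simp only [Prod.mk.injEq] at h
        exact htt ω ω' h.1
      have h2 : CH μ t' Z ≤ CH μ t Z := by
        refine e2.1 Ω _ _ _ μ _ _ _ hμ ?_
        intro ω ω' _ _ h
        simp only [Prod.mk.injEq] at h
        simp only [ht', h.1]
      have h3 : CH μ t Z ≤ ∑ ω, μ ω * Real.logb 2 ((2 : ℝ) ^ n) := by
        refine e3.1 Ω _ _ μ t Z (fun _ => (2 : ℝ) ^ n) hμ ?_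
        intro ω _
        have h4 : ∀ (I : DecidableEq ℕ) (s : Finset Ω),
            @Finset.image _ _ I t s ⊆ Finset.range (2 ^ n) := by
          intro I s y hy
          obtain ⟨ω', -, rfl⟩ := (@Finset.mem_image _ _ I _ _ _).1 hy
          exact Finset.mem_range.2 (htlt ω')
        have h5 := fun (I : DecidableEq ℕ) (s : Finset Ω) => Finset.card_le_card (h4 I s)
        simp only [Finset.card_range] at h5
        refine le_trans (Nat.cast_le.2 (h5 _ _)) ?_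
        push_cast
        exact le_rfl
      have h6 : ∑ ω, μ ω * Real.logb 2 ((2 : ℝ) ^ n) = n := by
        rw [← Finset.sum_mul]
        have h7 : (∑ ω, μ ω) = 1 := hsys.ms
        rw [h7, one_mul, Real.logb_pow, Real.logb_self_eq_one (by norm_num), mul_one]
      linarith
  have hmain := hn0 n hnn Ω ζ μ Z a' x' t' hHS
  have hx1 : CH μ (fun ω => cel n (x' ω)) Z = CH μ (fun ω => cel n (x ω)) Z := by
    simp only [hcx n le_rfl]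
  rw [hx1] at hmain
  -- the cells of the points
  have hY : CH μ (fun ω => cel n (Yt (t' ω) (a' ω) (x' ω))) (fun ω => (t' ω, Z ω)) ≤
      CH μ (fun ω => cel n (Yt (ht n (t ω)) (a ω) (x ω))) (fun ω => (t ω, Z ω)) + L := by
    set D : Ω → Fin m → ℤ := fun ω => cel n (Yt (t' ω) (a ω) (x ω)) -
      cel n (Yt (t' ω) (a' ω) (x' ω)) with hD
    have h1 : CH μ (fun ω => cel n (Yt (t' ω) (a' ω) (x' ω))) (fun ω => (t' ω, Z ω)) ≤
        CH μ (fun ω => (cel n (Yt (t' ω) (a ω) (x ω)), D ω)) (fun ω => (t' ω, Z ω)) := by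
      refine e2.1 Ω _ _ _ μ _ _ _ hμ ?_
      intro ω ω' _ _ h
      simp only [Prod.mk.injEq, hD] at h
      obtain ⟨⟨h2, h3⟩, -⟩ := h
      rw [h2] at h3
      exact sub_right_injective h3
    have h2 := (e1 Ω _ _ _ μ (fun ω => cel n (Yt (t' ω) (a ω) (x ω))) D
      (fun ω => (t' ω, Z ω)) hμ).2.1
    have h3 : CH μ D (fun ω => (cel n (Yt (t' ω) (a ω) (x ω)), (t' ω, Z ω))) ≤
        m * Real.logb 2 (2 + 1) * mass μ := by
      refine e3.2 Ω _ m μ D _ 2 hμ (by norm_num) ?_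
      intro ω ω' _ _ _ i
      have h4 := out_diff n (t' ω) (a ω) (x ω) (htb ω).1 (htb ω).2 i
      have h5 := out_diff n (t' ω') (a ω') (x ω') (htb ω').1 (htb ω').2 i
      have h6 : 0 ≤ D ω i ∧ D ω i ≤ 2 := h4
      have h7 : 0 ≤ D ω' i ∧ D ω' i ≤ 2 := h5
      have h8 : |D ω i - D ω' i| ≤ 2 := by
        rw [abs_le]
        constructor <;> omega
      have h9 : ((|D ω i - D ω' i| : ℤ) : ℝ) ≤ 2 := by exact_mod_cast h8
      push_cast at h9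
      exact h9
    rw [hsys.ms, mul_one] at h3
    have h4 : CH μ (fun ω => cel n (Yt (t' ω) (a ω) (x ω))) (fun ω => (t' ω, Z ω)) ≤
        CH μ (fun ω => cel n (Yt (ht n (t ω)) (a ω) (x ω))) (fun ω => (t ω, Z ω)) := by
      refine e2.2.1 Ω _ _ _ μ _ _ _ hμ ?_
      intro ω ω' _ _ h
      simp only [Prod.mk.injEq] at h ⊢
      exact ⟨htt ω ω' h.1, h.2⟩
    linarith
  linarith

end

end Pool.Agent.Helper66.HK
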